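import Pool.Agent.helper44.MDG.Spec

set_option autoImplicit false

namespace Pool.Agent.helper44.MDG

theorem PPC_col (e : Bool) (i : ℕ) : col e (i + 1) = !(col e i) := by
  unfold col
  rcases Nat.mod_two_eq_zero_or_one i with h | h
  · have h' : (i + 1) % 2 = 1 := by omega
    simp [h, h']
  · have h' : (i + 1) % 2 = 0 := by omega
    simp [h, h']

theorem PPC_one (e p : Bool) (i : ℕ) :
    (if col e (i + 1) = p then 1 else 0) + (if col e i = p then 1 else 0) = 1 := by
  rw [PPC_col]
  cases col e i <;> cases p <;> simp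

theorem PPC_bd (m : ℕ) (e p : Bool) :
    ∑ i ∈ (Finset.range (m + 1)).filter (fun i => col e i = p), bd (m + 1) i = m := by
  rw [Finset.sum_filter]
  have h1 : ∀ i ∈ Finset.range (m + 1), (if col e i = p then bd (m + 1) i else 0) =
      (if col e i = p then (if 0 < i then 1 else 0) else 0) +
      (if col e i = p then (if i + 1 < m + 1 then 1 else 0) else 0) := by
    intro i _
    unfold bd
    by_cases h : col e i = p
    · rw [if_pos h, if_pos h, if_pos h]
    · rw [if_neg h, if_neg h, if_neg h]
  rw [Finset.sum_congr rfl h1, Finset.sum_add_distrib]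
  have h2 : ∑ i ∈ Finset.range (m + 1), (if col e i = p then (if 0 < i then 1 else 0) else 0) =
      ∑ i ∈ Finset.range m, (if col e (i + 1) = p then 1 else 0) := by
    rw [Finset.sum_range_succ']
    have h0 : (if col e 0 = p then (if 0 < 0 then 1 else 0) else 0) = 0 := by simp
    rw [h0, add_zero]
    refine Finset.sum_congr rfl (fun i _ => ?_)
    rw [if_pos (Nat.succ_pos i)]
  have h3 : ∑ i ∈ Finset.range (m + 1), (if col e i = p then (if i + 1 < m + 1 then 1 else 0) else 0) =
      ∑ i ∈ Finset.range m, (if col e i = p then 1 else 0) := by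
    rw [Finset.sum_range_succ]
    have h0 : (if col e m = p then (if m + 1 < m + 1 then 1 else 0) else 0) = 0 := by simp
    rw [h0, add_zero]
    refine Finset.sum_congr rfl (fun i hi => ?_)
    have hi' := Finset.mem_range.mp hi
    rw [if_pos (by omega : i + 1 < m + 1)]
  rw [h2, h3, ← Finset.sum_add_distrib]
  rw [Finset.sum_congr rfl (fun i _ => PPC_one e p i)]
  simp

theorem PPC : PPC_stmt := by
  intro n r s e p c hR
  obtain ⟨m, hm⟩ : ∃ m, r = m + 1 := ⟨r - 1, by have := hR.pos; omega⟩
  have hb := PPC_bd m e p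
  rw [← hm] at hb
  have hr : r - 1 = m := by omega
  unfold cntP
  rw [hr, ← hb, ← Finset.sum_add_distrib]
  refine Finset.sum_congr rfl (fun i hi => ?_)
  have hi' := Finset.mem_range.mp (Finset.mem_filter.mp hi).1
  have hl := hR.len i hi'
  have hbd : bd r i ≤ 2 := by
    unfold bd
    split_ifs <;> omega
  omega

end Pool.Agent.helper44.MDG
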